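import Pool.Agent.Helper89.OC.St2

/-!
# Project OC (MP_2b6189_al), module GPZ: a sum of variances
-/

set_option autoImplicit false

namespace Pool.Agent.Helper70.OC

open Matrix ComplexConjugate Pool.Agent.Helper94.YF Pool.Agent.Helper94.YG Pool.Agent.Helper89.OS
open Pool.Agent.Helper89.OC

variable {I : Type} [Fintype I] [DecidableEq I] {p : ℕ} [NeZero p] (X : PD I p 1)

theorem gpz_card (hp : p.Prime) : (Fintype.card (ZMod (p ^ 1))ˣ : ℝ) = (p : ℝ) - 1 := by
  have h1 : Fintype.card (ZMod (p ^ 1))ˣ = p - 1 := by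
    rw [ZMod.card_units_eq_totient, pow_one, Nat.totient_prime hp]
  rw [h1, Nat.cast_sub hp.one_le]
  simp

theorem gpz_mem (c : (ZMod (p ^ 1))ˣ) (j : I) : X.pi c j ∈ Orb X j := by
  classical
  simp only [Orb, Finset.mem_filter, Finset.mem_univ, true_and]
  exact ⟨c, rfl⟩

theorem gpz_inv (c : (ZMod (p ^ 1))ˣ) (j : I) : X.pi c⁻¹ (X.pi c j) = j := by
  rw [← X.pi_mul, inv_mul_cancel, X.pi_one]

theorem gpz_mem' (c : (ZMod (p ^ 1))ˣ) (j : I) : j ∈ Orb X (X.pi c j) := by
  have h := gpz_mem X c⁻¹ (X.pi c j)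
  rwa [gpz_inv] at h

/-- averaging over the torus -/
theorem gpz_avg (hO : OB X) (G : I → ℝ) :
    (∑ c : (ZMod (p ^ 1))ˣ, ∑ j, (if X.t j = 1 then G (X.pi c j) else 0)) =
      ((p : ℝ) - 1) * ∑ j, (if X.t j = 1 then G j else 0) := by
  classical
  have h1 : ∀ c : (ZMod (p ^ 1))ˣ, (∑ j, (if X.t j = 1 then G (X.pi c j) else 0)) =
      ∑ j, (if X.t j = 1 then G j else 0) := by
    intro c
    rw [← Equiv.sum_comp (Equiv.ofBijective _ (hO.bij c)) (fun j => if X.t j = 1 then G j else 0)]
    apply Finset.sum_congr rfl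
    intro j _
    simp only [Equiv.ofBijective_apply]
    have h2 : X.t j = 1 ↔ X.t (X.pi c j) = 1 :=
      ⟨fun h => hO.t j _ (gpz_mem X c j) h, fun h => hO.t _ j (gpz_mem' X c j) h⟩
    by_cases h3 : X.t j = 1
    · rw [if_pos h3, if_pos (h2.1 h3)]
    · rw [if_neg h3, if_neg (fun h => h3 (h2.2 h))]
  rw [Finset.sum_congr rfl (fun c _ => h1 c), Finset.sum_const, nsmul_eq_mul, Finset.card_univ,
    gpz_card X.prime]

/-- the variance identity -/
theorem gpz_var {ι : Type} [Fintype ι] (w : ι → ℂ) (n : ℝ) (hn : (Fintype.card ι : ℝ) = n) :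
    ∑ c, ‖(n : ℂ) * w c - ∑ c', w c'‖ ^ 2 = n * (n * ∑ c, ‖w c‖ ^ 2 - ‖∑ c, w c‖ ^ 2) := by
  have e : ∀ c, ‖(n : ℂ) * w c - ∑ c', w c'‖ ^ 2 = n ^ 2 * ‖w c‖ ^ 2 -
      2 * n * (w c * conj (∑ c', w c')).re + ‖∑ c', w c'‖ ^ 2 := by
    intro c
    rw [Complex.sq_norm, Complex.sq_norm, Complex.sq_norm, Complex.normSq_sub]
    simp only [map_mul, Complex.normSq_ofReal, Complex.conj_ofReal]
    have : ((n : ℂ) * w c * conj (∑ c', w c')).re = n * (w c * conj (∑ c', w c')).re := by
      rw [mul_assoc, Complex.re_ofReal_mul]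
    rw [this]
    ring
  rw [Finset.sum_congr rfl (fun c _ => e c), Finset.sum_add_distrib, Finset.sum_sub_distrib,
    ← Finset.mul_sum, ← Finset.mul_sum, Finset.sum_const, nsmul_eq_mul, Finset.card_univ, hn]
  have h2 : ∑ c, (w c * conj (∑ c', w c')).re = ‖∑ c', w c'‖ ^ 2 := by
    rw [← Complex.re_sum, ← Finset.sum_mul, Complex.mul_conj, Complex.ofReal_re, Complex.sq_norm]
  rw [h2]
  ring

theorem hGPZ : StGPZ := by
  intro hE4 hE2 hORB I _ _ p _ X Q hB a ha
  classical
  have hO := hORB I p X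
  have hp1 : (1 : ℝ) < p := by exact_mod_cast X.prime.one_lt
  have hpm : ((p : ℝ) - 1) ≠ 0 := by linarith
  have hcard := gpz_card X.prime
  obtain ⟨hya, hta, hao⟩ : X.y a ≠ 0 ∧ X.t a = 1 ∧ a ≠ X.o := by
    simpa [Ks] using ha
  set f : I → ℝ := fun i => ∑ c : (ZMod (p ^ 1))ˣ, (if X.pi c a = i then (1 : ℝ) else 0) with hf
  set u : I → ℂ := fun i => (((p : ℝ) - 1) * (if i = a then 1 else 0) - f i : ℝ) with hu
  -- values of f
  have hf1 : ∀ i, f i = ((Finset.univ.filter fun c => X.pi c a = i).card : ℝ) := by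
    intro i
    simp [hf]
  have hf0 : ∀ i, i ∉ Orb X a → f i = 0 := by
    intro i hi
    simp only [hf]
    apply Finset.sum_eq_zero
    intro c _
    rw [if_neg]
    intro h
    exact hi (h ▸ gpz_mem X c a)
  have hf2 : ∀ i ∈ Orb X a, f i = f a := by
    intro i hi
    rw [hf1, hf1, hO.fib a i hi]
  have hf3 : ((Orb X a).card : ℝ) * f a = (p : ℝ) - 1 := by
    have h := hO.card a
    rw [hf1]
    have h' : (((Orb X a).card * (Finset.univ.filter fun c => X.pi c a = a).card : ℕ) : ℝ) =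
        ((p - 1 : ℕ) : ℝ) := by rw [h]
    rw [Nat.cast_sub X.prime.one_le] at h'
    push_cast at h'
    exact h'
  have hr0 : ((Orb X a).card : ℝ) ≠ 0 := by
    have : 0 < (Orb X a).card := Finset.card_pos.2 ⟨a, hO.self a⟩
    exact_mod_cast this.ne'
  -- support
  have hsupp : ∀ i, u i ≠ 0 → X.t i = 1 := by
    intro i hi
    by_contra ht
    apply hi
    have h1 : i ≠ a := fun h => ht (h ▸ hta)
    have h2 : i ∉ Orb X a := fun h => ht (hO.t a i h hta)
    simp only [hu]
    rw [if_neg h1, hf0 i h2]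
    simp
  -- orbit sums
  have hsum : ∀ k, ∑ c, u (X.pi c k) = 0 := by
    intro k
    have e1 : ∑ c, u (X.pi c k) = ((((p : ℝ) - 1) * ∑ c, (if X.pi c k = a then (1 : ℝ) else 0) -
        ∑ c, f (X.pi c k) : ℝ) : ℂ) := by
      simp only [hu]
      rw [← Complex.ofReal_sum, Finset.sum_sub_distrib, Finset.mul_sum]
    rw [e1]
    have e2 : ∑ c, f (X.pi c k) = ((p : ℝ) - 1) * ∑ c : (ZMod (p ^ 1))ˣ,
        (if X.pi c k = a then (1 : ℝ) else 0) := by
      simp only [hf]
      rw [Finset.sum_comm]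
      have e3 : ∀ c' : (ZMod (p ^ 1))ˣ, ∑ c : (ZMod (p ^ 1))ˣ,
          (if X.pi c' a = X.pi c k then (1 : ℝ) else 0) =
          ∑ c : (ZMod (p ^ 1))ˣ, (if X.pi c k = a then (1 : ℝ) else 0) := by
        intro c'
        rw [← Equiv.sum_comp (Equiv.mulLeft c') (fun c : (ZMod (p ^ 1))ˣ =>
          if X.pi c' a = X.pi c k then (1 : ℝ) else 0)]
        apply Finset.sum_congr rfl
        intro c _
        simp only [Equiv.coe_mulLeft, X.pi_mul]
        have h4 : (X.pi c' a = X.pi c' (X.pi c k)) ↔ X.pi c k = a :=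
          ⟨fun h => ((hO.bij c').1 h).symm, fun h => by rw [h]⟩
        by_cases h5 : X.pi c k = a
        · rw [if_pos h5, if_pos (h4.2 h5)]
        · rw [if_neg h5, if_neg (fun h => h5 (h4.1 h))]
      rw [Finset.sum_congr rfl (fun c' _ => e3 c'), Finset.sum_const, nsmul_eq_mul, Finset.card_univ,
        hcard]
    rw [e2, sub_self, Complex.ofReal_zero]
  -- the norm of u
  have hnorm : ∑ k, ‖u k‖ ^ 2 = ((p : ℝ) - 1) ^ 2 * (1 - 1 / ((Orb X a).card : ℝ)) := by
    have e1 : ∀ k, ‖u k‖ ^ 2 = (if k = a then (((p : ℝ) - 1) ^ 2 - 2 * ((p : ℝ) - 1) * f a) else 0) +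
        f k ^ 2 := by
      intro k
      simp only [hu]
      rw [Complex.norm_real, Real.norm_eq_abs, sq_abs]
      by_cases hk : k = a
      · subst hk
        simp only [if_true]
        ring
      · simp only [if_neg hk]
        ring
    rw [Finset.sum_congr rfl (fun k _ => e1 k), Finset.sum_add_distrib,
      Finset.sum_ite_eq' Finset.univ a, if_pos (Finset.mem_univ a)]
    have e2 : ∑ k, f k ^ 2 = ((Orb X a).card : ℝ) * f a ^ 2 := by
      rw [← Finset.sum_subset (Finset.subset_univ (Orb X a))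
        (fun k _ hk => by rw [hf0 k hk]; ring),
        Finset.sum_congr rfl (fun k hk => by rw [hf2 k hk]), Finset.sum_const, nsmul_eq_mul]
    rw [e2]
    have e3 : f a = ((p : ℝ) - 1) / ((Orb X a).card : ℝ) := by
      rw [eq_div_iff hr0, mul_comm]; exact hf3
    rw [e3]
    field_simp
    ring
  -- E4
  have h4 := hE4 hE2 hORB I p X u hsupp hsum
  have hsu : ∀ j, ∑ k, X.s j k * u k = (((p : ℝ) - 1 : ℝ) : ℂ) * X.s a j - ∑ c, X.s a (X.pi c j) := by
    intro j
    have e1 : ∀ k, X.s j k * u k = (if k = a then (((p : ℝ) - 1 : ℝ) : ℂ) * X.s j k else 0) -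
        ∑ c : (ZMod (p ^ 1))ˣ, (if X.pi c a = k then X.s j k else 0) := by
      intro k
      simp only [hu, hf]
      push_cast
      rw [mul_sub, Finset.mul_sum]
      congr 1
      · by_cases hk : k = a
        · simp only [if_pos hk, Complex.ofReal_one, mul_one]; ring
        · simp only [if_neg hk, Complex.ofReal_zero, mul_zero]
      · apply Finset.sum_congr rfl
        intro c _
        by_cases hk : X.pi c a = k
        · simp only [if_pos hk, Complex.ofReal_one, mul_one]
        · simp only [if_neg hk, Complex.ofReal_zero, mul_zero]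
    rw [Finset.sum_congr rfl (fun k _ => e1 k), Finset.sum_sub_distrib,
      Finset.sum_ite_eq' Finset.univ a, if_pos (Finset.mem_univ a), Finset.sum_comm]
    congr 1
    · rw [X.s_symm j a]
    · apply Finset.sum_congr rfl
      intro c _
      rw [Finset.sum_ite_eq Finset.univ (X.pi c a), if_pos (Finset.mem_univ _), ← X.pi_s,
        X.s_symm]
  -- averaging
  set S : I → ℂ := fun j => ∑ c, X.s a (X.pi c j) with hS
  have hSinv : ∀ (c : (ZMod (p ^ 1))ˣ) (j : I), S (X.pi c j) = S j := by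
    intro c j
    simp only [hS]
    rw [← Equiv.sum_comp (Equiv.mulRight c) (fun c' : (ZMod (p ^ 1))ˣ => X.s a (X.pi c' j))]
    apply Finset.sum_congr rfl
    intro c' _
    simp only [Equiv.coe_mulRight, X.pi_mul]
  set G : I → ℝ := fun j => ‖(((p : ℝ) - 1 : ℝ) : ℂ) * X.s a j - S j‖ ^ 2 with hG
  set T : I → ℝ := fun l => ((p : ℝ) - 1) * ∑ c, ‖X.s a (X.pi c l)‖ ^ 2 -
    ‖∑ c, X.s a (X.pi c l)‖ ^ 2 with hT
  have h5 : (∑ j, if X.t j = 1 then G j else 0) = (p : ℝ) * ∑ k, ‖u k‖ ^ 2 := by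
    rw [← h4]
    apply Finset.sum_congr rfl
    intro j _
    rw [hsu j]
  have h6 : ∀ j, ∑ c, G (X.pi c j) = ((p : ℝ) - 1) * T j := by
    intro j
    have := gpz_var (fun c : (ZMod (p ^ 1))ˣ => X.s a (X.pi c j)) ((p : ℝ) - 1) hcard
    simp only [hG, hT]
    rw [← this]
    apply Finset.sum_congr rfl
    intro c _
    rw [hSinv]
  have h7 : (∑ j, if X.t j = 1 then T j else 0) = ∑ j, if X.t j = 1 then G j else 0 := by
    have h8 := gpz_avg X hO G
    rw [Finset.sum_comm] at h8
    have h9 : ∀ j, (∑ c, (if X.t j = 1 then G (X.pi c j) else 0)) =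
        ((p : ℝ) - 1) * (if X.t j = 1 then T j else 0) := by
      intro j
      by_cases hj : X.t j = 1
      · simp only [if_pos hj]
        exact h6 j
      · simp only [if_neg hj]
        simp
    rw [Finset.sum_congr rfl (fun j _ => h9 j), ← Finset.mul_sum] at h8
    exact mul_left_cancel₀ hpm h8
  have h10 : ∑ l ∈ Ks X, T l = ∑ j, if X.t j = 1 then T j else 0 := by
    rw [← Finset.sum_subset (Finset.subset_univ (Ks X))]
    · apply Finset.sum_congr rfl
      intro l hl
      have : X.t l = 1 := by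
        simp only [Ks, Finset.mem_filter, Finset.mem_univ, true_and] at hl
        exact hl.2.1
      rw [if_pos this]
    · intro l _ hl
      by_cases htl : X.t l = 1
      · rw [if_pos htl]
        have hl' : X.y l = 0 ∨ l = X.o := by
          by_contra hcon
          push Not at hcon
          apply hl
          simp only [Ks, Finset.mem_filter, Finset.mem_univ, true_and]
          exact ⟨hcon.1, htl, hcon.2⟩
        rcases hl' with h | h
        · have hz : ∀ c, X.s a (X.pi c l) = 0 := by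
            intro c
            apply hB.sup a _ hya
            rw [X.pi_y]
            exact h
          simp only [hT, hz]
          simp
        · subst h
          have hz : ∀ c, X.s a (X.pi c X.o) = X.y a := by
            intro c
            rw [X.pi_o, X.s_o]
          simp only [hT, hz, Finset.sum_const, nsmul_eq_mul, Finset.card_univ]
          rw [norm_mul]
          have hc2 : ‖((Fintype.card (ZMod (p ^ 1))ˣ : ℕ) : ℂ)‖ = (p : ℝ) - 1 := by
            rw [Complex.norm_natCast, hcard]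
          rw [hc2, hcard]
          ring
      · rw [if_neg htl]
  rw [h10, h7, h5, hnorm]
  ring

end Pool.Agent.Helper70.OC
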